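import Pool.Agent.H90.EH.Targets

set_option autoImplicit false

namespace Pool.Agent.H50.EH

open Finset Pool.Agent.H90.EH
open scoped Classical

theorem pf_LPE (h1 : T_CAR) (h2 : T_EXT) (h3 : T_COE) (h4 : T_PIV) : T_LPE := by
  intro V _ _ A w ht z hht hw hz hq
  obtain ⟨B0, hB0A, hB0, c, hc, hzc⟩ := h1 V A z hz
  obtain ⟨B1, hB01, hB1⟩ := h2 V A B0 hB0A hB0
  have hz0 : z ∈ Sp B0 := mem_Sp.2 ⟨c, hzc⟩
  have hpos1 : ∀ b ∈ B1, 0 < co B1 z b := by
    intro b hb
    have hne := hq.2 B1 hB1 b hb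
    have hco := h3 V B0 B1 z hB01 hB1.2.1 hz0
    by_cases hb0 : b ∈ B0
    · have e1 : co B1 z b = co B0 z b := hco.1 b hb0
      have e2 : co B0 z b = c b := co_unique hB0 hzc hb0
      have := hc b hb0
      rw [e1, e2] at hne ⊢
      exact lt_of_le_of_ne this (Ne.symm hne)
    · exact absurd (hco.2 b hb hb0) hne
  set F : Finset (Finset V) := A.powerset.filter (fun B => IsB A B ∧ ∀ b ∈ B, 0 < co B z b) with hF
  have hFne : F.Nonempty := ⟨B1, by
    rw [hF, mem_filter]
    exact ⟨mem_powerset.2 hB1.1, hB1, hpos1⟩⟩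
  obtain ⟨B, hBF, hmin⟩ := exists_min_image F (fun B => ∑ b ∈ B, co B z b * w b) hFne
  rw [hF, mem_filter] at hBF
  obtain ⟨hBA, hB, hpos⟩ := hBF
  refine ⟨B, ?_, hpos⟩
  unfold Tri
  rw [mem_filter]
  refine ⟨hBA, hB, ?_⟩
  intro a ha haB
  by_contra hlt
  have hgt : w a < ∑ b ∈ B, co B a b * w b := by
    have h5 := hw B hB a ha haB
    rcases lt_trichotomy (w a) (∑ b ∈ B, co B a b * w b) with h | h | h
    · exact h
    · exact absurd h.symm h5
    · exact absurd h hlt
  have haS : a ∈ Sp B := hB.2.2 a ha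
  have hsum : ∑ b ∈ B, co B a b = 1 := by
    have e := congrArg ht (co_spec haS)
    rw [hht a ha, map_sum] at e
    rw [e]
    refine sum_congr rfl fun b hb => ?_
    rw [map_smul, hht b (hB.1 hb)]
    simp
  have hex : (B.filter (fun b => 0 < co B a b)).Nonempty := by
    by_contra hne
    rw [not_nonempty_iff_eq_empty, filter_eq_empty_iff] at hne
    have : ∑ b ∈ B, co B a b ≤ 0 := sum_nonpos fun b hb => not_lt.1 (hne hb)
    linarith
  obtain ⟨b0, hb0, hb0min⟩ := exists_min_image _ (fun b => co B z b / co B a b) hex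
  rw [mem_filter] at hb0
  obtain ⟨hb0B, hb0p⟩ := hb0
  obtain ⟨hB2, hcoB2⟩ := h4 V A B a b0 hB ha haB hb0B hb0p.ne'
  obtain ⟨hta, htb⟩ := hcoB2 z hq.1
  set t : ℚ := co B z b0 / co B a b0 with ht_def
  have htpos : 0 < t := div_pos (hpos b0 hb0B) hb0p
  set B2 : Finset V := insert a (B.erase b0) with hB2def
  have haB2 : a ∉ B.erase b0 := fun h => haB (mem_of_mem_erase h)
  have hpos2 : ∀ b ∈ B2, 0 < co B2 z b := by
    intro b hb
    have hne := hq.2 B2 hB2 b hb
    rw [hB2def, mem_insert] at hb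
    rcases hb with rfl | hb
    · rw [hta]; exact htpos
    · have hbB := mem_of_mem_erase hb
      have hbne := ne_of_mem_erase hb
      have e := htb b hbB hbne
      have hnn : 0 ≤ co B z b - t * co B a b := by
        by_cases hp : 0 < co B a b
        · have := hb0min b (mem_filter.2 ⟨hbB, hp⟩)
          have h6 : t * co B a b ≤ co B z b / co B a b * co B a b :=
            mul_le_mul_of_nonneg_right this hp.le
          rw [div_mul_cancel₀ _ hp.ne'] at h6
          linarith
        · have h7 : t * co B a b ≤ 0 := mul_nonpos_of_nonneg_of_nonpos htpos.le (not_lt.1 hp)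
          have := hpos b hbB
          linarith
      rw [e] at hne ⊢
      exact lt_of_le_of_ne hnn (Ne.symm hne)
  have hB2F : B2 ∈ F := by
    rw [hF, mem_filter]
    exact ⟨mem_powerset.2 hB2.1, hB2, hpos2⟩
  have hle := hmin B2 hB2F
  have hcost : ∑ b ∈ B2, co B2 z b * w b =
      t * w a + (∑ b ∈ B, co B z b * w b - t * ∑ b ∈ B, co B a b * w b) := by
    rw [hB2def, sum_insert haB2, ← hB2def, hta]
    congr 1
    have e1 : ∑ b ∈ B.erase b0, co B2 z b * w b =
        ∑ b ∈ B.erase b0, (co B z b - t * co B a b) * w b := by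
      refine sum_congr rfl fun b hb => ?_
      rw [htb b (mem_of_mem_erase hb) (ne_of_mem_erase hb)]
    rw [e1]
    have e2 : (co B z b0 - t * co B a b0) * w b0 +
        ∑ b ∈ B.erase b0, (co B z b - t * co B a b) * w b =
        ∑ b ∈ B, (co B z b - t * co B a b) * w b :=
      add_sum_erase B (fun b => (co B z b - t * co B a b) * w b) hb0B
    have e3 : co B z b0 - t * co B a b0 = 0 := by
      rw [ht_def, div_mul_cancel₀ _ hb0p.ne', sub_self]
    rw [e3, zero_mul, zero_add] at e2
    rw [e2, mul_sum, ← sum_sub_distrib]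
    refine sum_congr rfl fun b _ => ?_
    ring
  have hlt2 : t * w a < t * ∑ b ∈ B, co B a b * w b := mul_lt_mul_of_pos_left hgt htpos
  rw [hcost] at hle
  linarith

end Pool.Agent.H50.EH
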